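import Pool.Agent.H46.VT.Red

/-!
# MP_36d07e_lc: finitely many exceptions
-/

namespace VT.H43

open Nat.Partrec (Code)
open Nat.Partrec.Code Encodable Denumerable

theorem pf_FE (hRA : TARGET_RA) (hLF : TARGET_LF) : TARGET_FE := by
  intro ph hrun k hk
  obtain ⟨-, hLF2, hLF3, -⟩ := hLF ph hrun
  obtain ⟨-, -, -, -, -, -, hRA7, -, -, hRA10, -, -, -⟩ := hRA ph hrun
  have hne : tv ph k ≠ 0 := fun h => hk ((hLF2 k).1 h)
  obtain ⟨b0, hb0⟩ : ∃ b0, tv ph k = b0 + 1 := ⟨tv ph k - 1, by omega⟩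
  obtain ⟨h1, h2⟩ := hLF3 k b0 hb0
  obtain ⟨s1, hs1⟩ : ∃ s1, b0 ≠ 0 → Big ph k s1 (b0 - 1) := by
    by_cases hb : b0 = 0
    · exact ⟨0, fun h => absurd hb h⟩
    · obtain ⟨s, hs⟩ := h2 (b0 - 1) (by omega)
      exact ⟨s, fun _ => hs⟩
  refine (Set.finite_Iio (max b0 s1)).subset ?_
  rintro x ⟨hx1, hx2, s, hs⟩
  rw [Set.mem_Iio]
  obtain ⟨-, t, -, hxt, hpt, -, hg⟩ := hRA7 s x hs
  have hrr : k < rr x (ph t x).2 := by
    rw [hpt]
    unfold rr
    have hL : LX x = mX x + eX x := rfl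
    rw [if_neg (by simp only; omega), if_neg (by simp only; omega)]
    simp only
    omega
  rcases hg k hx1 hrr with ⟨_, hB⟩ | ⟨hg0, hE1, hE2⟩
  · by_contra hcon
    push Not at hcon
    exact h1 t (hRA10 k t t x b0 le_rfl (le_trans (le_max_left _ _) hcon) hB)
  · rw [hb0] at hx2
    rcases lt_trichotomy (gX x k - 1) b0 with hlt | heq | hgt
    · have hb : b0 ≠ 0 := by omega
      have hB := hs1 hb
      have hts : t < s1 := by
        by_contra hcon
        push Not at hcon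
        exact hE1 (hRA10 k s1 t (b0 - 1) (gX x k - 1) hcon (by omega) hB)
      exact lt_of_lt_of_le (hxt.trans hts) (le_max_right _ _)
    · omega
    · rcases hE2 with h0 | hB
      · omega
      · exact absurd (hRA10 k t t _ b0 le_rfl (by omega) hB) (h1 t)

end VT.H43
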