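import Pool.Agent.H46.VT.Red
import Pool.Agent.H46.VT.Tools

/-!
# MP_36d07e_lc: the set `T` is c.e.
-/

namespace VT.H43

open Pool.Agent.H46.VT

open Nat.Partrec (Code)
open Nat.Partrec.Code Encodable Denumerable

theorem pf_TC (hRA : TARGET_RA) (hRG : TARGET_RG) : TARGET_TC := by
  intro ph hph hrun k
  obtain ⟨-, hU, hC, -, -, -, -, -, -, hBig, -, -, -⟩ := hRA ph hrun
  have hF : Computable (fun q : Unit × ℕ × ℕ => (fun _ : Unit => ph) q.1 q.2.1 q.2.2) :=
    hph.comp (Computable.fst.comp Computable.snd) (Computable.snd.comp Computable.snd)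
  obtain ⟨rU, rC, -, -, -, rB⟩ := hRG Unit inferInstance (fun _ => ph) hF
  have hmap : ∀ l : ℕ, Computable (fun q : ℕ × ℕ => (((), l, q.1, q.2) : Unit × ℕ × ℕ × ℕ)) :=
    fun l => (Computable.const ()).pair
      ((Computable.const l).pair (Computable.fst.pair Computable.snd))
  have cU : ComputablePred (fun q : ℕ × ℕ => Uin ph (rl k) q.1 q.2) :=
    cp_comp (f := fun q : ℕ × ℕ => (((), rl k, q.1, q.2) : Unit × ℕ × ℕ × ℕ)) rU (hmap (rl k))
  have cC : ComputablePred (fun q : ℕ × ℕ => Cin ph (rl k) q.1 q.2) :=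
    cp_comp (f := fun q : ℕ × ℕ => (((), rl k, q.1, q.2) : Unit × ℕ × ℕ × ℕ)) rC (hmap (rl k))
  have cB : ∀ k', ComputablePred (fun q : ℕ × ℕ => Big ph k' q.1 q.2) := fun k' =>
    cp_comp (f := fun q : ℕ × ℕ => (((), k', q.1, q.2) : Unit × ℕ × ℕ × ℕ)) rB (hmap k')
  have cA : ∀ n, ComputablePred (fun q : ℕ × ℕ => ∀ k' < n, Inf ph k' → Big ph k' q.1 q.2) := by
    intro n
    induction n with
    | zero => exact (cp_const True).of_eq fun q => by simp
    | succ n ih =>
      have h1 : ComputablePred (fun q : ℕ × ℕ => Inf ph n → Big ph n q.1 q.2) :=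
        cp_imp (cp_const (Inf ph n)) (cB n)
      refine (cp_and ih h1).of_eq fun q => ?_
      constructor
      · rintro ⟨h, h'⟩ k' hk'
        rcases Nat.lt_succ_iff_lt_or_eq.1 hk' with h3 | h3
        · exact h k' h3
        · subst h3
          exact h'
      · intro h
        exact ⟨fun y hy => h y (Nat.lt_succ_of_lt hy), h n (Nat.lt_succ_self n)⟩
  constructor
  · have := ce_of_exists (P := fun s x => Uin ph (rl k) s x ∧ ¬ Cin ph (rl k) s x ∧
      ∀ k' < k + 1, Inf ph k' → Big ph k' s x) (cp_and cU (cp_and (cp_not cC) (cA (k + 1))))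
    convert this using 1
    ext x
    simp only [TT, Set.mem_ofPred_eq, Nat.lt_succ_iff]
  · rintro x ⟨⟨s0, hs0⟩, hx⟩
    have hn : ∀ n, ∃ s1, ∀ k' < n, Inf ph k' → Big ph k' s1 x := by
      intro n
      induction n with
      | zero => exact ⟨0, fun k' hk' => by omega⟩
      | succ n ih =>
        obtain ⟨s1, hs1⟩ := ih
        by_cases hI : Inf ph n
        · obtain ⟨s2, hs2⟩ := hI x
          refine ⟨max s1 s2, fun k' hk' hI' => ?_⟩
          rcases Nat.lt_succ_iff_lt_or_eq.1 hk' with h3 | h3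
          · exact hBig k' s1 _ x x (le_max_left _ _) le_rfl (hs1 k' h3 hI')
          · subst h3
            exact hBig k' s2 _ x x (le_max_right _ _) le_rfl hs2
        · refine ⟨s1, fun k' hk' hI' => ?_⟩
          rcases Nat.lt_succ_iff_lt_or_eq.1 hk' with h3 | h3
          · exact hs1 k' h3 hI'
          · subst h3
            exact absurd hI' hI
    obtain ⟨s1, hs1⟩ := hn (k + 1)
    refine ⟨max s0 s1, hU _ s0 _ x (le_max_left _ _) hs0, fun h => hx ⟨_, h⟩, fun k' hk' hI => ?_⟩
    exact hBig k' s1 _ x x (le_max_right _ _) le_rfl (hs1 k' (Nat.lt_succ_of_le hk') hI)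

end VT.H43
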