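import Pool.Agent.H46.VT.Red
import Pool.Agent.H46.VT.Tools

/-!
# MP_36d07e_lc: the weak major subset property
-/

namespace VT.H43

open Pool.Agent.H46.VT

open Nat.Partrec (Code)
open Nat.Partrec.Code Encodable Denumerable

theorem pf_WL (hWA : TARGET_WA) (hCD : TARGET_CD) (hLF : TARGET_LF) (hRG : TARGET_RG)
    (hRH : TARGET_RH) (hRA : TARGET_RA) (hCS : TARGET_CS) : TARGET_WL := by
  intro ph hph hrun l T hT hUT
  obtain ⟨-, hC, -, -, -, -, -⟩ := hCS ph hph hrun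
  obtain ⟨cT, rfl⟩ := ce_iff_code.1 hT
  obtain ⟨cC, hcC⟩ := ce_iff_code.1 (hC l)
  obtain ⟨cE, hcE⟩ := ce_iff_code.1 ce_empty
  obtain ⟨k, hk, hk1, -, hk3, hk4, hk5⟩ := hCD.2.1 (lm l) l Code.zero cE cC cT
  have hInf : Inf ph k := by
    refine (hLF ph hrun).2.2.2 k ?_ ?_ ?_ ?_
    · rw [hk3, hk4, hk1, ← hcE, ← hcC, Set.empty_union]
    · rw [hk3, ← hcE, Set.empty_inter]
    · rw [hk3, ← hcE, Set.empty_sdiff, Set.inter_empty, Set.inter_empty]
    · rw [hk1, hk5]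
      exact hUT
  have hfin := hWA ph hrun k (fun _ => by rw [hk1]; exact hk) hInf
  rw [hk1, hk5] at hfin
  obtain ⟨-, -, -, hA, -, -, -, -, -, -, hFrz, -, -⟩ := hRA ph hrun
  have hF : Computable (fun q : Unit × ℕ × ℕ => (fun _ : Unit => ph) q.1 q.2.1 q.2.2) :=
    hph.comp (Computable.fst.comp Computable.snd) (Computable.snd.comp Computable.snd)
  obtain ⟨-, -, rA, -, -, -⟩ := hRG Unit inferInstance (fun _ => ph) hF
  obtain ⟨-, -, rF, -⟩ := hRH Unit inferInstance (fun _ => ph) hF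
  have cA : ComputablePred (fun q : ℕ × ℕ => Ain ph l q.1 q.2) :=
    cp_comp (f := fun q : ℕ × ℕ => (((), l, q.1, q.2) : Unit × ℕ × ℕ × ℕ)) rA
      ((Computable.const ()).pair ((Computable.const l).pair (Computable.fst.pair Computable.snd)))
  have cF : ComputablePred (fun q : ℕ × ℕ => Frz ph q.1 q.2) :=
    cp_comp (f := fun q : ℕ × ℕ => (((), q.1, q.2) : Unit × ℕ × ℕ)) rF
      ((Computable.const ()).pair (Computable.fst.pair Computable.snd))
  refine ⟨{x | ∃ s, Frz ph s x ∧ ¬ Ain ph l s x} ∪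
    {x | x ∈ CC ph l ∧ x ∉ AA ph l ∧ x ∉ W cT ∧ ¬ ∃ s, Frz ph s x}, ?_, ?_, ?_⟩
  · exact ce_union (ce_of_exists (P := fun s x => Frz ph s x ∧ ¬ Ain ph l s x)
      (cp_and cF (cp_not cA))) (ce_finite hfin)
  · rw [Set.eq_empty_iff_forall_notMem]
    rintro x ⟨⟨s, hs1, hs2⟩ | hx, t, ht⟩
    · rcases le_total t s with h | h
      · exact hs2 (hA l t s x h ht)
      · have h1 := (hFrz s t x h hs1).1
        apply hs2
        unfold Ain at ht ⊢
        rwa [h1] at ht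
    · exact hx.2.1 ⟨t, ht⟩
  · rintro x ⟨hx1, hx2⟩
    by_cases hxC : x ∈ CC ph l
    · by_cases hxT : x ∈ W cT
      · exact Or.inl hxT
      · by_cases hxF : ∃ s, Frz ph s x
        · obtain ⟨s, hs⟩ := hxF
          exact Or.inr (Or.inl ⟨s, hs, fun h => hx2 ⟨s, h⟩⟩)
        · exact Or.inr (Or.inr ⟨hxC, hx2, hxT, hxF⟩)
    · exact Or.inl (hUT ⟨hx1, hxC⟩)

end VT.H43
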